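import Pool.Agent.Helper31.CY.St2

/-! # CY MODULE DSC: two discs -/

set_option autoImplicit false

open Set Topology Filter

namespace Pool.Agent.Helper36.CY

open Pool.Agent.Helper31.CY

private theorem box_open (q : ℝ × ℝ) (ε : ℝ) : IsOpen (box q ε) := by
  have h1 : IsOpen {x : ℝ × ℝ | |x.1 - q.1| < ε} :=
    isOpen_lt (continuous_fst.sub continuous_const).abs continuous_const
  have h2 : IsOpen {x : ℝ × ℝ | |x.2 - q.2| < ε} :=
    isOpen_lt (continuous_snd.sub continuous_const).abs continuous_const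
  exact h1.inter h2

private theorem mem_box_self (q : ℝ × ℝ) {ε : ℝ} (hε : 0 < ε) : q ∈ box q ε := by
  constructor
  · rw [sub_self, abs_zero]
    exact hε
  · rw [sub_self, abs_zero]
    exact hε

private theorem small (hCTF : StCTF) {r ε : ℝ} (m : ℝ) (hr : 0 < r) (hε : 0 < ε) :
    ∃ δ : ℝ, 0 < δ ∧ ∀ τ : ℝ, |τ| < δ → |cat r m τ - r| < ε := by
  obtain ⟨h0, -, -, h3, -⟩ := hCTF r m hr
  have h4 := (h3 0).continuousAt
  rw [Metric.continuousAt_iff] at h4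
  obtain ⟨δ, hδ, h5⟩ := h4 ε hε
  refine ⟨δ, hδ, fun τ hτ => ?_⟩
  have h6 := h5 (x := τ) (by rwa [Real.dist_eq, sub_zero])
  rwa [Real.dist_eq, h0] at h6

/-- the run at one of the two extreme levels -/
private theorem run_lvl (hRUN : StRUN) (hLVL : StLVL) {N : Set (ℝ × ℝ)} {r0 r1 h : ℝ}
    (hN : Net N r0 r1 h) (t b : ℝ) (ht : t = 0 ∨ t = h)
    (hb : ∀ y : ℝ, y < b → (y, t) ≠ (r0, (0 : ℝ)) ∧ (y, t) ≠ (r1, h))
    (hex : ∃ y : ℝ, 0 ≤ y ∧ y < b ∧ (y, t) ∈ N) : ∀ y : ℝ, 0 ≤ y → y ≤ b → (y, t) ∈ N := by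
  apply hRUN N t b hN.cpt.isClosed _ hex
  intro y hy0 hyb hyN
  rcases hy0.eq_or_lt with h0 | h0
  · right
    refine ⟨h0.symm, hN.ax t ?_⟩
    rw [h0]
    exact hyN
  · left
    exact ⟨h0, (hLVL N r0 r1 h hN).2.2.2.1 (y, t) hyN h0 ht (hb y hyb).1 (hb y hyb).2⟩

private theorem top (hHGT : StHGT) (hLVL : StLVL) (hRUN : StRUN) (hCTF : StCTF)
    {N : Set (ℝ × ℝ)} {r0 r1 h : ℝ} (hN : Net N r0 r1 h) {x0 : ℝ × ℝ} (hx0 : x0 ∈ N)
    (hx0h : x0.2 = h) (hx0n : x0 ≠ (r1, h)) :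
    ∀ x : ℝ × ℝ, x ∈ N ↔ (x.2 = 0 ∧ 0 ≤ x.1 ∧ x.1 ≤ r0) ∨ (x.2 = h ∧ 0 ≤ x.1 ∧ x.1 ≤ r1) := by
  obtain ⟨L1, L2, L3, L4, -⟩ := hLVL N r0 r1 h hN
  have hh := hN.h0
  -- the level `h`
  have hx1 : x0.1 < r1 := by
    refine lt_of_le_of_ne (L3 x0 hx0 hx0h) fun h1 => hx0n ?_
    exact Prod.ext h1 hx0h
  have hH : ∀ y : ℝ, 0 ≤ y → y ≤ r1 → (y, h) ∈ N := by
    refine run_lvl hRUN hLVL hN h r1 (Or.inr rfl) (fun y hy => ⟨fun h1 => ?_, fun h1 => ?_⟩)
      ⟨x0.1, hN.nn x0 hx0, hx1, ?_⟩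
    · exact hh.ne' (congrArg Prod.snd h1)
    · exact hy.ne (congrArg Prod.fst h1)
    · rw [← hx0h]
      exact hx0
  -- the points of height `h` are relatively open
  have hOpen : ∀ q ∈ N, q.2 = h → ∃ ε : ℝ, 0 < ε ∧ ∀ x ∈ box q ε, x ∈ N → x.2 = h := by
    intro q hq hqh
    have hq0 := hN.nn q hq
    rcases hq0.eq_or_lt with h0 | h0
    · have h1 : ((0 : ℝ), h) ∈ N := by
        rw [h0, ← hqh]
        exact hq
      obtain ⟨ε, hε, h2⟩ := hN.ax h h1
      refine ⟨ε, hε, fun x hx hxN => (h2 x ?_ (hN.nn x hxN)).1 hxN⟩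
      have h3 : q = (0, h) := Prod.ext h0.symm hqh
      rwa [h3] at hx
    · rcases (L3 q hq hqh).eq_or_lt with h1 | h1
      · obtain ⟨v, hv, ε, hε, h2⟩ := hN.e1
        have hqe : q = (r1, h) := Prod.ext h1 hqh
        have hv2 : v.2 = 0 := by
          have hp1 := hN.p1
          have hδ : 0 < min (ε / 2) (r1 / 2) := lt_min (by linarith) (by linarith)
          have hδ1 : min (ε / 2) (r1 / 2) ≤ ε / 2 := min_le_left _ _
          have hδ2 : min (ε / 2) (r1 / 2) ≤ r1 / 2 := min_le_right _ _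
          have h3 : (r1 - min (ε / 2) (r1 / 2), h) ∈ N := hH _ (by linarith) (by linarith)
          have h4 : (r1 - min (ε / 2) (r1 / 2), h) ∈ box (r1, h) ε := by
            constructor
            · show |r1 - min (ε / 2) (r1 / 2) - r1| < ε
              rw [show r1 - min (ε / 2) (r1 / 2) - r1 = -min (ε / 2) (r1 / 2) by ring, abs_neg,
                abs_of_pos hδ]
              linarith
            · show |h - h| < ε
              rw [sub_self, abs_zero]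
              exact hε
          rcases (h2 _ h4).1 h3 with ⟨-, -, h5⟩ | ⟨-, -, h5⟩ | ⟨h5, -⟩
          · exfalso
            have h6 : r1 - min (ε / 2) (r1 / 2) = cat r1 (v.1 / v.2) (h - h) := h5
            rw [sub_self, (hCTF r1 _ hp1).1] at h6
            linarith
          · exfalso
            have h6 : r1 - min (ε / 2) (r1 / 2) = cat r1 (v.1 / v.2) (h - h) := h5
            rw [sub_self, (hCTF r1 _ hp1).1] at h6
            linarith
          · exact h5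
        refine ⟨ε, hε, fun x hx hxN => ?_⟩
        rw [hqe] at hx
        rcases (h2 x hx).1 hxN with ⟨h5, -⟩ | ⟨h5, -⟩ | ⟨-, h5, -⟩
        · rw [hv2] at h5
          exact absurd h5 (lt_irrefl _)
        · rw [hv2] at h5
          exact absurd h5 (lt_irrefl _)
        · exact h5
      · obtain ⟨ε, hε, h2⟩ := L4 q hq h0 (Or.inr hqh)
          (fun h3 => hh.ne' (by rw [← hqh, h3])) (fun h3 => h1.ne (by rw [h3]))
        exact ⟨ε, hε, fun x hx hxN => ((h2 x hx).1 hxN).trans hqh⟩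
  -- the rest is compact
  obtain ⟨U, hU⟩ : ∃ U : Set (ℝ × ℝ), U = {x | ∃ q ∈ N, q.2 = h ∧ ∃ ε : ℝ, 0 < ε ∧
      (∀ x ∈ box q ε, x ∈ N → x.2 = h) ∧ x ∈ box q ε} := ⟨_, rfl⟩
  have hUo : IsOpen U := by
    rw [isOpen_iff_mem_nhds]
    intro x hx
    rw [hU] at hx
    obtain ⟨q, hq, hqh, ε, hε, h1, h2⟩ := hx
    refine mem_of_superset ((box_open q ε).mem_nhds h2) fun y hy => ?_
    rw [hU]
    exact ⟨q, hq, hqh, ε, hε, h1, hy⟩
  obtain ⟨K, hK⟩ : ∃ K : Set (ℝ × ℝ), K = {x | x ∈ N ∧ x.2 < h} := ⟨_, rfl⟩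
  have hKm : ∀ x, x ∈ K ↔ x ∈ N ∧ x.2 < h := by
    intro x
    rw [hK]
    rfl
  have hKc : IsCompact K := by
    have h1 : K = N ∩ Uᶜ := by
      ext x
      rw [hKm]
      constructor
      · rintro ⟨h2, h3⟩
        refine ⟨h2, fun h4 => ?_⟩
        rw [hU] at h4
        obtain ⟨q, -, -, ε, -, h5, h6⟩ := h4
        exact h3.ne (h5 x h6 h2)
      · rintro ⟨h2, h3⟩
        refine ⟨h2, lt_of_le_of_ne (L1 x h2).2 fun h4 => h3 ?_⟩
        obtain ⟨ε, hε, h5⟩ := hOpen x h2 h4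
        rw [hU]
        exact ⟨x, h2, h4, ε, hε, h5, mem_box_self x hε⟩
    rw [h1]
    exact hN.cpt.inter_right hUo.isClosed_compl
  have hz : (r0, (0 : ℝ)) ∈ K := (hKm _).2 ⟨hN.q0, hh⟩
  have hG := (hHGT N r0 r1 h hN K {(r0, 0)} hKc ⟨_, hz⟩ (fun x hx => ((hKm x).1 hx).1) (by
    intro q hq hqX
    obtain ⟨h1, h2⟩ := (hKm q).1 hq
    refine ⟨fun h3 => hqX h3, fun h3 => ?_, h - q.2, by linarith, fun x hx hxN => ?_⟩
    · rw [h3] at h2
      exact lt_irrefl _ h2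
    · have h4 := (abs_lt.1 hx.2).2
      exact (hKm x).2 ⟨hxN, by linarith⟩)).1
  obtain ⟨q, -, hqX, hG1, -⟩ := hG
  have hq2 : q = (r0, 0) := hqX
  have hK0 : ∀ x ∈ N, x.2 < h → x.2 = 0 := by
    intro x hx hxh
    have h1 := hG1 x ((hKm x).2 ⟨hx, hxh⟩)
    rw [hq2] at h1
    exact le_antisymm h1 (L1 x hx).1
  -- the lower end
  obtain ⟨v, hv, ε, hε, h2⟩ := hN.e0
  have hp0 := hN.p0
  have hv2 : v.2 = 0 := by
    obtain ⟨δ, hδ, h3⟩ := small hCTF (v.1 / v.2) hp0 hε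
    obtain ⟨τ, hτ⟩ : ∃ τ : ℝ, τ = min (δ / 2) (min (ε / 2) (h / 2)) := ⟨_, rfl⟩
    have t0 : 0 < τ := by
      rw [hτ]
      exact lt_min (by linarith) (lt_min (by linarith) (by linarith))
    have t1 : τ ≤ δ / 2 := by
      rw [hτ]
      exact min_le_left _ _
    have t2 : τ ≤ ε / 2 := by
      rw [hτ]
      exact (min_le_right _ _).trans (min_le_left _ _)
    have t3 : τ ≤ h / 2 := by
      rw [hτ]
      exact (min_le_right _ _).trans (min_le_right _ _)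
    rcases lt_trichotomy v.2 0 with h4 | h4 | h4
    · exfalso
      have h5 : (cat r0 (v.1 / v.2) (-τ), -τ) ∈ box (r0, (0 : ℝ)) ε := by
        constructor
        · exact h3 (-τ) (by rw [abs_neg, abs_of_pos t0]; linarith)
        · show |-τ - 0| < ε
          rw [sub_zero, abs_neg, abs_of_pos t0]
          linarith
      have h6 : (cat r0 (v.1 / v.2) (-τ), -τ) ∈ N := by
        refine (h2 _ h5).2 (Or.inr (Or.inl ⟨h4, ?_, ?_⟩))
        · show -τ ≤ 0
          linarith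
        · show cat r0 (v.1 / v.2) (-τ) = cat r0 (v.1 / v.2) (-τ - 0)
          rw [sub_zero]
      have h7 : 0 ≤ -τ := (L1 _ h6).1
      linarith
    · exact h4
    · exfalso
      have h5 : (cat r0 (v.1 / v.2) τ, τ) ∈ box (r0, (0 : ℝ)) ε := by
        constructor
        · exact h3 τ (by rw [abs_of_pos t0]; linarith)
        · show |τ - 0| < ε
          rw [sub_zero, abs_of_pos t0]
          linarith
      have h6 : (cat r0 (v.1 / v.2) τ, τ) ∈ N := by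
        refine (h2 _ h5).2 (Or.inl ⟨h4, t0.le, ?_⟩)
        show cat r0 (v.1 / v.2) τ = cat r0 (v.1 / v.2) (τ - 0)
        rw [sub_zero]
      have h7 : τ = 0 := hK0 _ h6 (by show τ < h; linarith)
      linarith
  have hv1 : v.1 < 0 := by
    rcases lt_trichotomy v.1 0 with h4 | h4 | h4
    · exact h4
    · exact absurd (Prod.ext h4 hv2) hv
    · exfalso
      have h5 : (r0 + ε / 2, (0 : ℝ)) ∈ box (r0, (0 : ℝ)) ε := by
        constructor
        · show |r0 + ε / 2 - r0| < ε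
          rw [add_sub_cancel_left, abs_of_pos (by linarith)]
          linarith
        · show |(0 : ℝ) - 0| < ε
          rw [sub_self, abs_zero]
          exact hε
      have h6 : (r0 + ε / 2, (0 : ℝ)) ∈ N := by
        refine (h2 _ h5).2 (Or.inr (Or.inr ⟨hv2, rfl, ?_⟩))
        show 0 ≤ (r0 + ε / 2 - r0) * v.1
        rw [add_sub_cancel_left]
        exact mul_nonneg (by linarith) h4.le
      have h7 : r0 + ε / 2 ≤ r0 := L2 _ h6 rfl
      linarith
  have hZ : ∀ y : ℝ, 0 ≤ y → y ≤ r0 → (y, (0 : ℝ)) ∈ N := by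
    have hδ : 0 < min (ε / 2) (r0 / 2) := lt_min (by linarith) (by linarith)
    have hδ1 : min (ε / 2) (r0 / 2) ≤ ε / 2 := min_le_left _ _
    have hδ2 : min (ε / 2) (r0 / 2) ≤ r0 / 2 := min_le_right _ _
    refine run_lvl hRUN hLVL hN 0 r0 (Or.inl rfl) (fun y hy => ⟨fun h1 => ?_, fun h1 => ?_⟩)
      ⟨r0 - min (ε / 2) (r0 / 2), by linarith, by linarith, ?_⟩
    · exact hy.ne (congrArg Prod.fst h1)
    · exact hh.ne (congrArg Prod.snd h1)
    · have h5 : (r0 - min (ε / 2) (r0 / 2), (0 : ℝ)) ∈ box (r0, (0 : ℝ)) ε := by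
        constructor
        · show |r0 - min (ε / 2) (r0 / 2) - r0| < ε
          rw [show r0 - min (ε / 2) (r0 / 2) - r0 = -min (ε / 2) (r0 / 2) by ring, abs_neg,
            abs_of_pos hδ]
          linarith
        · show |(0 : ℝ) - 0| < ε
          rw [sub_self, abs_zero]
          exact hε
      refine (h2 _ h5).2 (Or.inr (Or.inr ⟨hv2, rfl, ?_⟩))
      show 0 ≤ (r0 - min (ε / 2) (r0 / 2) - r0) * v.1
      rw [show r0 - min (ε / 2) (r0 / 2) - r0 = -min (ε / 2) (r0 / 2) by ring]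
      exact mul_nonneg_of_nonpos_of_nonpos (by linarith) hv1.le
  intro x
  constructor
  · intro hx
    rcases (L1 x hx).2.eq_or_lt with h3 | h3
    · exact Or.inr ⟨h3, hN.nn x hx, L3 x hx h3⟩
    · have h4 := hK0 x hx h3
      exact Or.inl ⟨h4, hN.nn x hx, L2 x hx h4⟩
  · rintro (⟨h3, h4, h5⟩ | ⟨h3, h4, h5⟩)
    · have h6 := hZ x.1 h4 h5
      rw [← h3] at h6
      exact h6
    · have h6 := hH x.1 h4 h5
      rw [← h3] at h6
      exact h6

/-- DSC -/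
theorem hDSC (hREF : StREF) (hHGT : StHGT) (hLVL : StLVL) (hRUN : StRUN) (hCTF : StCTF)
    (hY3 : StY3) : StDSC := by
  have _ := hY3
  intro N r0 r1 h hN hSg
  have key : ∀ x : ℝ × ℝ, x ∈ N ↔ (x.2 = 0 ∧ 0 ≤ x.1 ∧ x.1 ≤ r0) ∨
      (x.2 = h ∧ 0 ≤ x.1 ∧ x.1 ≤ r1) := by
    unfold Sg at hSg
    push Not at hSg
    obtain ⟨x, hx, h1⟩ := hSg
    by_cases h2 : x.2 = h ∧ x ≠ (r1, h)
    · exact top hHGT hLVL hRUN hCTF hN hx h2.1 h2.2
    · have h3 : x.2 = 0 ∧ x ≠ (r0, 0) := by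
        by_contra h4
        have h5 : x.2 = 0 → x = (r0, 0) := fun h6 => by
          by_contra h7
          exact h4 ⟨h6, h7⟩
        exact h2 (h1 h5)
      obtain ⟨hN', -⟩ := hREF N r0 r1 h hN
      have h4 : (x.1, h) ∈ {x : ℝ × ℝ | (x.1, h - x.2) ∈ N} := by
        show (x.1, h - h) ∈ N
        rw [sub_self, ← h3.1]
        exact hx
      have h5 : (x.1, h) ≠ (r0, h) := fun h6 =>
        h3.2 (Prod.ext (Prod.mk.inj h6).1 h3.1)
      have h6 := top hHGT hLVL hRUN hCTF hN' h4 rfl h5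
      intro y
      have h7 := h6 (y.1, h - y.2)
      have h8 : (y.1, h - y.2) ∈ {x : ℝ × ℝ | (x.1, h - x.2) ∈ N} ↔ y ∈ N := by
        show (y.1, h - (h - y.2)) ∈ N ↔ y ∈ N
        rw [sub_sub_cancel]
      rw [h8] at h7
      rw [h7]
      show (h - y.2 = 0 ∧ 0 ≤ y.1 ∧ y.1 ≤ r1) ∨ (h - y.2 = h ∧ 0 ≤ y.1 ∧ y.1 ≤ r0) ↔ _
      constructor
      · rintro (⟨h9, h10⟩ | ⟨h9, h10⟩)
        · exact Or.inr ⟨by linarith, h10⟩
        · exact Or.inl ⟨by linarith, h10⟩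
      · rintro (⟨h9, h10⟩ | ⟨h9, h10⟩)
        · exact Or.inr ⟨by linarith, h10⟩
        · exact Or.inl ⟨by linarith, h10⟩
  refine ⟨key, fun q hq => (hLVL N r0 r1 h hN).2.2.2.2 q hq ?_⟩
  rcases (key q).1 hq with ⟨h1, -⟩ | ⟨h1, -⟩
  · exact Or.inl h1
  · exact Or.inr h1

end Pool.Agent.Helper36.CY
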