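import Pool.Agent.Helper31.CY.St4

set_option autoImplicit false

open Set Topology Filter

namespace Pool.Agent.Helper36.CY

open Pool.Agent.Helper31.CY

private theorem proj_bv (i j : Fin 3) :
    (EuclideanSpace.proj j : E3 →L[ℝ] ℝ) (bv i) = if j = i then 1 else 0 := by
  show (EuclideanSpace.single i (1 : ℝ) : E3) j = _
  rw [PiLp.single_apply]

private theorem bv_apply (i j : Fin 3) : (bv i) j = if j = i then 1 else 0 := proj_bv i j

private theorem hproj (j : Fin 3) (x : E3) :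
    HasFDerivAt (fun y : E3 => y j) (EuclideanSpace.proj j : E3 →L[ℝ] ℝ) x :=
  (EuclideanSpace.proj j : E3 →L[ℝ] ℝ).hasFDerivAt

private theorem D_of {g : E3 → ℝ} {L : E3 →L[ℝ] ℝ} {x : E3} (h : HasFDerivAt g L x) (i : Fin 3) :
    D i g x = L (bv i) := by
  unfold D
  rw [h.fderiv]

/-- XR1 -/
theorem hXR1 : StXR1 := by
  intro S p ρ m z0 ε hρ hp hε hS
  obtain ⟨k, hk⟩ : ∃ k, k = Real.sqrt (1 + m ^ 2) := ⟨_, rfl⟩
  have hk0 : 0 < k := by rw [hk]; exact Real.sqrt_pos.2 (by positivity)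
  obtain ⟨A, hA⟩ : ∃ A : ℝ → ℝ, A = fun z => (z - z0) * k / ρ + Real.arsinh m := ⟨_, rfl⟩
  obtain ⟨u, hu⟩ : ∃ u : ℝ → ℝ, u = fun z => ρ / k * Real.cosh (A z) := ⟨_, rfl⟩
  obtain ⟨v, hv⟩ : ∃ v : ℝ → ℝ, v = fun z => Real.sinh (A z) := ⟨_, rfl⟩
  have hucat : ∀ z, cat ρ m (z - z0) = u z := by
    intro z
    rw [hu, hA, hk]
    rfl
  have hupos : ∀ z, 0 < u z := by
    intro z
    rw [hu]
    exact mul_pos (div_pos hρ hk0) (Real.cosh_pos _)
  have hAd : ∀ z, HasDerivAt A (k / ρ) z := by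
    intro z
    rw [hA]
    have h := (((hasDerivAt_id z).sub_const z0).mul_const (k / ρ)).add_const (Real.arsinh m)
    refine (h.congr_deriv (by ring)).congr_of_eventuallyEq (Filter.Eventually.of_forall fun y => ?_)
    show (y - z0) * k / ρ + Real.arsinh m = (y - z0) * (k / ρ) + Real.arsinh m
    ring
  have hud : ∀ z, HasDerivAt u (v z) z := by
    intro z
    rw [hu, hv]
    refine (((hAd z).cosh).const_mul (ρ / k)).congr_deriv ?_
    show ρ / k * (Real.sinh (A z) * (k / ρ)) = Real.sinh (A z)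
    field_simp
  obtain ⟨w, hw⟩ : ∃ w : ℝ → ℝ, w = fun z => Real.cosh (A z) * (k / ρ) := ⟨_, rfl⟩
  have hvd : ∀ z, HasDerivAt v (w z) z := by
    intro z
    rw [hv, hw]
    exact (hAd z).sinh
  have huw : ∀ z, u z * w z = 1 + v z ^ 2 := by
    intro z
    rw [hu, hv, hw]
    show ρ / k * Real.cosh (A z) * (Real.cosh (A z) * (k / ρ)) = 1 + Real.sinh (A z) ^ 2
    have h1 := Real.cosh_sq (A z)
    have h2 : ρ / k * Real.cosh (A z) * (Real.cosh (A z) * (k / ρ)) = Real.cosh (A z) ^ 2 := by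
      field_simp
    rw [h2, h1]
    ring
  obtain ⟨f, hf⟩ : ∃ f : E3 → ℝ, f = fun x => x 0 ^ 2 + x 1 ^ 2 - u (x 2) ^ 2 := ⟨_, rfl⟩
  have hfd : ∀ x : E3, HasFDerivAt f ((2 * x 0) • (EuclideanSpace.proj 0 : E3 →L[ℝ] ℝ)
      + (2 * x 1) • (EuclideanSpace.proj 1 : E3 →L[ℝ] ℝ)
      - (2 * u (x 2) * v (x 2)) • (EuclideanSpace.proj 2 : E3 →L[ℝ] ℝ)) x := by
    intro x
    rw [hf]
    have a0 := (hproj 0 x).pow 2
    have a1 := (hproj 1 x).pow 2
    have a2 := ((hud (x 2)).comp_hasFDerivAt x (hproj 2 x)).pow 2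
    refine ((a0.add a1).sub a2).congr_fderiv ?_
    ext y
    simp
    ring
  have D0 : D 0 f = fun x => 2 * x 0 := by
    funext x
    rw [D_of (hfd x)]
    simp [bv_apply]
  have D1' : D 1 f = fun x => 2 * x 1 := by
    funext x
    rw [D_of (hfd x)]
    simp [bv_apply]
  have D2' : D 2 f = fun x => -(2 * (u (x 2) * v (x 2))) := by
    funext x
    rw [D_of (hfd x)]
    simp [bv_apply]
    ring
  have d0 : ∀ x : E3, HasFDerivAt (D 0 f) ((2 : ℝ) • (EuclideanSpace.proj 0 : E3 →L[ℝ] ℝ)) x := by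
    intro x
    rw [D0]
    exact (hproj 0 x).const_mul 2
  have d1 : ∀ x : E3, HasFDerivAt (D 1 f) ((2 : ℝ) • (EuclideanSpace.proj 1 : E3 →L[ℝ] ℝ)) x := by
    intro x
    rw [D1']
    exact (hproj 1 x).const_mul 2
  have d2 : ∀ x : E3, HasFDerivAt (D 2 f) ((-(2 * (1 + 2 * v (x 2) ^ 2))) •
      (EuclideanSpace.proj 2 : E3 →L[ℝ] ℝ)) x := by
    intro x
    rw [D2']
    have a1 := (((hud (x 2)).mul (hvd (x 2))).const_mul 2).neg
    refine (a1.comp_hasFDerivAt x (hproj 2 x)).congr_fderiv ?_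
    congr 1
    have := huw (x 2)
    linear_combination (-2 : ℝ) * this
  refine ⟨f, Metric.ball p ε ∩ {x : E3 | 0 < x 0 ^ 2 + x 1 ^ 2}, ?_, ?_, ?_, ?_, ?_, ?_⟩
  · refine Metric.isOpen_ball.inter (isOpen_lt continuous_const ?_)
    fun_prop
  · exact ⟨Metric.mem_ball_self hε, hp⟩
  · have hcu : ContDiff ℝ 2 u := by
      rw [hu, hA]
      fun_prop
    rw [hf]
    have : ContDiff ℝ 2 (fun x : E3 => x 0 ^ 2 + x 1 ^ 2 - u (x 2) ^ 2) := by
      fun_prop
    exact this.contDiffOn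
  · intro x hx h0
    have hx2 : 0 < x 0 ^ 2 + x 1 ^ 2 := hx.2
    have e0 : D 0 f x = 0 := by unfold D; rw [h0]; rfl
    have e1 : D 1 f x = 0 := by unfold D; rw [h0]; rfl
    rw [D0] at e0
    rw [D1'] at e1
    have e0' : x 0 = 0 := by
      have : 2 * x 0 = 0 := e0
      linarith
    have e1' : x 1 = 0 := by
      have : 2 * x 1 = 0 := e1
      linarith
    rw [e0', e1'] at hx2
    norm_num at hx2
  · intro x hx
    rw [hS x hx.1, hucat, hf]
    show Real.sqrt (x 0 ^ 2 + x 1 ^ 2) = u (x 2) ↔ x 0 ^ 2 + x 1 ^ 2 - u (x 2) ^ 2 = 0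
    constructor
    · intro h
      have := Real.sq_sqrt (show 0 ≤ x 0 ^ 2 + x 1 ^ 2 by positivity)
      rw [h] at this
      linarith
    · intro h
      have : x 0 ^ 2 + x 1 ^ 2 = u (x 2) ^ 2 := by linarith
      rw [this, Real.sqrt_sq (hupos _).le]
  · intro x hx hxS
    have hs : x 0 ^ 2 + x 1 ^ 2 = u (x 2) ^ 2 := by
      have h := (hS x hx.1).1 hxS
      rw [hucat] at h
      have h' : Real.sqrt (x 0 ^ 2 + x 1 ^ 2) = u (x 2) := h
      have := Real.sq_sqrt (show 0 ≤ x 0 ^ 2 + x 1 ^ 2 by positivity)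
      rw [h'] at this
      linarith
    have f0 : D 0 f x = 2 * x 0 := by rw [D0]
    have f1 : D 1 f x = 2 * x 1 := by rw [D1']
    have f2 : D 2 f x = -(2 * (u (x 2) * v (x 2))) := by rw [D2']
    have g : ∀ j, D j (D 0 f) x = if (0 : Fin 3) = j then 2 else 0 := by
      intro j
      rw [D_of (d0 x), smul_apply, proj_bv]
      split_ifs <;> simp
    have g1 : ∀ j, D j (D 1 f) x = if (1 : Fin 3) = j then 2 else 0 := by
      intro j
      rw [D_of (d1 x), smul_apply, proj_bv]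
      split_ifs <;> simp
    have g2 : ∀ j, D j (D 2 f) x = if (2 : Fin 3) = j then -(2 * (1 + 2 * v (x 2) ^ 2)) else 0 := by
      intro j
      rw [D_of (d2 x), smul_apply, proj_bv]
      split_ifs <;> simp
    unfold mse
    simp only [Fin.sum_univ_three, f0, f1, f2, g, g1, g2]
    simp only [show ((0 : Fin 3) = 1) = False by decide, show ((0 : Fin 3) = 2) = False by decide,
      show ((1 : Fin 3) = 0) = False by decide, show ((1 : Fin 3) = 2) = False by decide,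
      show ((2 : Fin 3) = 0) = False by decide, show ((2 : Fin 3) = 1) = False by decide,
      if_true, if_false]
    have e : x 0 ^ 2 = u (x 2) ^ 2 - x 1 ^ 2 := by linarith
    linear_combination (4 * (2 - 4 * v (x 2) ^ 2) - 8) * hs

end Pool.Agent.Helper36.CY
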